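import Pool.Agent.H21.NX.CAL
import Pool.Agent.H21.NX.CEN
import Pool.Agent.H21.NX.PTY
import Pool.Agent.H48.NX.LA
import Pool.Agent.H53.NX.ORDP
import Pool.Agent.H74.NX.LIN
import Pool.Agent.H48.NS.FP
import Pool.Agent.H74.NS.AI

/-!
# Assembly of the board nx_modules (MP_9b2842_al, groups of `p`-type and of finitary type)
-/

set_option autoImplicit false

namespace Pool.Agent.H11.NX

theorem all_la : T_LA :=
  Pool.Agent.H48.NX.LA.pf_la

theorem all_lin : T_LIN :=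
  Pool.Agent.H74.NX.LIN.pf_lin all_la

theorem all_cen : T_CEN :=
  Pool.Agent.H21.NX.pf_cen Pool.Agent.H48.NSFP.pf_fp

theorem all_ordp : T_ORDP :=
  Pool.Agent.H53.NX.ORDP.pf_ordp all_lin

theorem all_pty : T_PTY :=
  Pool.Agent.H21.NX.pf_pty all_lin all_cen Pool.Agent.H74.NS.AI.pf_ai

theorem all_cal : T_CAL :=
  Pool.Agent.H21.NX.pf_cal Pool.Agent.H74.NS.AI.pf_ai

end Pool.Agent.H11.NX
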