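import Mathlib

/-!
# Targets of the board nx_modules (MP_9b2842_al: locally finite groups of `p`-type)

Every module `XX` proves `pf_xx : T_A → T_B → ... → T_XX` (the dependencies of the row are
hypotheses), so all modules can be written in parallel.
-/

set_option autoImplicit false
set_option linter.unusedVariables false

open Equiv (Perm)

namespace Pool.Agent.H11.NX

/-- every centralizer of a non-identity element is almost soluble -/
def AS (G : Type) [Group G] : Prop :=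
  ∀ g : G, g ≠ 1 → ∃ H : Subgroup (Subgroup.centralizer ({g} : Set G)),
    H.index ≠ 0 ∧ Group.IsSolvable H

/-- Kegel cover of `p`-type: modulo the normal `p`-subgroup `P` the group `L` is the product of
the commuting subgroups `A` and `B`, where `A` is a central extension of `PSL(n, K)` -/
def PCover (G : Type) [Group G] (p : ℕ) : Prop :=
  ∀ (F : Finset G) (k : ℕ), ∃ (L : Subgroup G) (P A B : Subgroup L) (n : ℕ) (K : Type)
    (_ : Field K) (φ : L →* Matrix.ProjectiveSpecialLinearGroup (Fin n) K),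
    Finite L ∧ CharP K p ∧ Function.Surjective φ ∧ k ≤ n ∧
      (∀ x ∈ F, ∃ hx : x ∈ L, x ≠ 1 → φ ⟨x, hx⟩ ≠ 1) ∧
      P.Normal ∧ IsPGroup p P ∧ P ≤ φ.ker ∧ A ⊔ B = ⊤ ∧ ⁅A, B⁆ ≤ P ∧ B ≤ φ.ker ∧
      ⁅A, A ⊓ φ.ker⁆ ≤ P

/-- the centralizers of the finite subsets contain all finite alternating groups -/
def CAlt (G : Type) [Group G] : Prop :=
  ∀ (F : Finset G) (k : ℕ), ∃ ψ : alternatingGroup (Fin k) →* G, Function.Injective ψ ∧
    ∀ x ∈ F, ∀ σ, x * ψ σ = ψ σ * x

/-- a linear map with scalar `r`-th power commutes with a large symmetric group -/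
def T_LA : Prop := ∀ (K V : Type) [Field K] [AddCommGroup V] [Module K V]
    [FiniteDimensional K V] (T : Module.End K V) (c : K) (r m : ℕ), r.Prime → (r : K) ≠ 0 →
    c ≠ 0 → (∀ v, (T ^ r) v = c • v) → r * r * m ≤ Module.finrank K V →
    ∃ θ : Perm (Fin m) →* (V ≃ₗ[K] V), (∀ σ v, T (θ σ v) = θ σ (T v)) ∧
      ∀ (σ : Perm (Fin m)) (a : K), (∀ v, θ σ v = a • v) → σ = 1

/-- the same for matrices of determinant one and even permutations -/
def T_LIN : Prop := ∀ (K : Type) [Field K] (n r m : ℕ)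
    (g : Matrix.SpecialLinearGroup (Fin n) K), r.Prime → (r : K) ≠ 0 →
    g ^ r ∈ Subgroup.center (Matrix.SpecialLinearGroup (Fin n) K) → 5 ≤ m → r * r * m ≤ n →
    ∃ θ : alternatingGroup (Fin m) →* Matrix.SpecialLinearGroup (Fin n) K,
      (∀ σ, g * θ σ = θ σ * g) ∧
      ∀ σ, θ σ ∈ Subgroup.center (Matrix.SpecialLinearGroup (Fin n) K) → σ = 1

/-- elements of perfect subgroups commuting with the image of an `r`-element lift to its
centralizer -/
def T_CEN : Prop := ∀ (L Q : Type) [Group L] [Finite L] [Group Q] (φ : L →* Q)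
    (P A B : Subgroup L) (p r : ℕ), p.Prime → r.Prime → r ≠ p → Function.Surjective φ →
    P.Normal → IsPGroup p P → P ≤ φ.ker → A ⊔ B = ⊤ → ⁅A, B⁆ ≤ P → B ≤ φ.ker →
    ⁅A, A ⊓ φ.ker⁆ ≤ P → ∀ g : L, g ^ r = 1 → ∀ E : Subgroup Q, ⁅E, E⁆ = E →
    (∀ e ∈ E, e * φ g = φ g * e) → ∀ e ∈ E, ∃ x : L, x * g = g * x ∧ φ x = e

def T_ORDP : Prop := ∀ (G : Type) [Group G] (p : ℕ), p.Prime → PCover G p →
    ∃ (g : G) (r : ℕ), r.Prime ∧ r ≠ p ∧ g ≠ 1 ∧ g ^ r = 1

def T_PTY : Prop := ∀ (G : Type) [Group G] (p : ℕ), p.Prime → PCover G p →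
    ∀ (g : G) (r : ℕ), r.Prime → r ≠ p → g ≠ 1 → g ^ r = 1 →
    ∀ H : Subgroup (Subgroup.centralizer ({g} : Set G)), H.index ≠ 0 → ¬ Group.IsSolvable H

def T_CAL : Prop := ∀ (G : Type) [Group G], CAlt G → ∀ (g : G)
    (H : Subgroup (Subgroup.centralizer ({g} : Set G))), H.index ≠ 0 → ¬ Group.IsSolvable H

end Pool.Agent.H11.NX
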